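import Pool.Agent.Run7.h115.HK.Iface

/-!
# Project HK (helper115), pieces W1 and W2: square waves and Riemann-Lebesgue
-/

set_option autoImplicit false

open MeasureTheory Filter Topology Set
open scoped ENNReal ContDiff
open Pool.Agent.N288.MM Run7.h115.HK

namespace Run7.h847.HK

noncomputable section

/-! ### W1 -/

/-- the square wave of period one -/
def sqw (x : ℝ) : ℝ := if Int.fract x < 1 / 2 then 1 else 2

lemma sqw_meas : Measurable sqw :=
  Measurable.ite (measurableSet_lt measurable_fract measurable_const) measurable_const measurable_const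

lemma sqw_cases (x : ℝ) : sqw x = 1 ∨ sqw x = 2 := by
  unfold sqw
  split_ifs
  · exact Or.inl rfl
  · exact Or.inr rfl

lemma sqw_bd (x : ℝ) : ‖sqw x - 3 / 2‖ ≤ 1 / 2 := by
  rcases sqw_cases x with h | h <;> rw [h, Real.norm_eq_abs] <;> norm_num [abs_le]

lemma sqw_per : Function.Periodic (fun x => sqw x - 3 / 2) (1 : ℝ) := by
  intro x
  simp only [sqw, Int.fract_add_one]

lemma sqw_iint (a b : ℝ) : IntervalIntegrable (fun x => sqw x - 3 / 2) volume a b := by
  refine (intervalIntegrable_const (c := (1 / 2 : ℝ))).mono_fun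
    (sqw_meas.sub_const _).aestronglyMeasurable (Eventually.of_forall fun t => ?_)
  show ‖sqw t - 3 / 2‖ ≤ ‖(1 / 2 : ℝ)‖
  refine (sqw_bd t).trans ?_
  norm_num

lemma ae_ne (c : ℝ) : ∀ᵐ x : ℝ, x ≠ c := by
  rw [ae_iff]
  simp

lemma sqw_zero : ∫ x in (0 : ℝ)..1, (sqw x - 3 / 2) = 0 := by
  rw [← intervalIntegral.integral_add_adjacent_intervals (sqw_iint 0 (1 / 2)) (sqw_iint (1 / 2) 1)]
  have h1 : ∫ x in (0 : ℝ)..(1 / 2), (sqw x - 3 / 2) = ∫ _x in (0 : ℝ)..(1 / 2), (-(1 / 2) : ℝ) := by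
    refine intervalIntegral.integral_congr_ae ?_
    filter_upwards [ae_ne (1 / 2)] with x hx hx2
    rw [uIoc_of_le (by norm_num)] at hx2
    have h3 : Int.fract x = x := Int.fract_eq_self.2 ⟨hx2.1.le, by linarith [hx2.2]⟩
    unfold sqw
    rw [h3, if_pos (lt_of_le_of_ne hx2.2 hx)]
    norm_num
  have h2 : ∫ x in (1 / 2 : ℝ)..1, (sqw x - 3 / 2) = ∫ _x in (1 / 2 : ℝ)..1, ((1 / 2) : ℝ) := by
    refine intervalIntegral.integral_congr_ae ?_
    filter_upwards [ae_ne 1] with x hx hx2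
    rw [uIoc_of_le (by norm_num)] at hx2
    have h3 : Int.fract x = x := Int.fract_eq_self.2 ⟨by linarith [hx2.1], lt_of_le_of_ne hx2.2 hx⟩
    unfold sqw
    rw [h3, if_neg (not_lt.2 hx2.1.le)]
    norm_num
  rw [h1, h2, intervalIntegral.integral_const, intervalIntegral.integral_const]
  norm_num

lemma sqw_osc (a b : ℝ) : |∫ x in a..b, (sqw x - 3 / 2)| ≤ 1 / 2 := by
  set n : ℤ := ⌊b - a⌋ with hn
  have h1 := sqw_per.intervalIntegral_add_zsmul_eq n a sqw_iint
  have h2 : ∫ x in a..a + 1, (sqw x - 3 / 2) = 0 := by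
    rw [sqw_per.intervalIntegral_add_eq a 0, zero_add]
    exact sqw_zero
  rw [h2, smul_zero] at h1
  rw [← intervalIntegral.integral_add_adjacent_intervals (sqw_iint a (a + n • (1 : ℝ))) (sqw_iint _ b), h1,
    zero_add]
  have h3 := intervalIntegral.norm_integral_le_of_norm_le_const (a := a + n • (1 : ℝ)) (b := b)
    (f := fun x => sqw x - 3 / 2) (C := 1 / 2) (fun x _ => sqw_bd x)
  rw [Real.norm_eq_abs] at h3
  refine h3.trans ?_
  have h4 : b - (a + n • (1 : ℝ)) = Int.fract (b - a) := by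
    rw [zsmul_one, Int.fract]
    ring
  rw [h4, abs_of_nonneg (Int.fract_nonneg _)]
  linarith [Int.fract_lt_one (b - a)]

theorem t_W1 : S_W1 := by
  refine ⟨fun N x => sqw ((N + 1) * x), ⟨fun N => ⟨?_, ?_, ?_⟩, ?_, ?_⟩⟩
  · exact sqw_meas.comp (measurable_const.mul measurable_id)
  · intro x
    rcases sqw_cases ((N + 1) * x) with h | h <;> rw [h]
    norm_num
  · intro x
    rcases sqw_cases ((N + 1) * x) with h | h <;> rw [h]
    norm_num
  · intro N
    refine Eventually.of_forall fun x => ?_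
    rcases sqw_cases ((N + 1) * x) with h | h <;> simp only [h] <;> norm_num
  · intro N a b
    have hN : (0 : ℝ) < (N : ℝ) + 1 := by positivity
    have h1 := intervalIntegral.integral_comp_mul_left (a := a) (b := b) (fun x => sqw x - 3 / 2) hN.ne'
    rw [h1, smul_eq_mul, abs_mul, abs_of_nonneg (inv_nonneg.2 hN.le), one_div]
    have h2 := sqw_osc (((N : ℝ) + 1) * a) (((N : ℝ) + 1) * b)
    calc ((N : ℝ) + 1)⁻¹ * |∫ x in ((N : ℝ) + 1) * a..((N : ℝ) + 1) * b, (sqw x - 3 / 2)|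
        ≤ ((N : ℝ) + 1)⁻¹ * 1 :=
          mul_le_mul_of_nonneg_left (h2.trans (by norm_num)) (inv_nonneg.2 hN.le)
      _ = ((N : ℝ) + 1)⁻¹ := mul_one _

/-! ### W2 -/

lemma v_bd {w : ℕ → ℝ → ℝ} (hw : Osc w) (N : ℕ) (x : ℝ) : ‖w N x - 3 / 2‖ ≤ 1 / 2 := by
  rw [Real.norm_eq_abs, abs_le]
  have h1 := (hw.wt N).one_le x
  have h2 := (hw.wt N).le_two x
  constructor <;> linarith

lemma v_iint {w : ℕ → ℝ → ℝ} (hw : Osc w) (N : ℕ) (a b : ℝ) :
    IntervalIntegrable (fun x => w N x - 3 / 2) volume a b := by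
  refine (intervalIntegrable_const (c := (1 / 2 : ℝ))).mono_fun
    ((hw.wt N).meas.sub_const _).aestronglyMeasurable (Eventually.of_forall fun t => ?_)
  show ‖w N t - 3 / 2‖ ≤ ‖(1 / 2 : ℝ)‖
  refine (v_bd hw N t).trans ?_
  norm_num

lemma smooth_bd {w : ℕ → ℝ → ℝ} (hw : Osc w) {g : ℝ → ℝ} (hg1 : HasCompactSupport g)
    (hg2 : ContDiff ℝ ∞ g) : ∃ C : ℝ, 0 ≤ C ∧ ∀ N : ℕ, |∫ x, g x * (w N x - 3 / 2)| ≤ C / (N + 1) := by
  obtain ⟨R₀, hR₀⟩ := hg1.isCompact.isBounded.subset_ball 0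
  set R : ℝ := max R₀ 1 with hR
  have hR1 : (1 : ℝ) ≤ R := le_max_right _ _
  have hsub : tsupport g ⊆ Metric.ball 0 R := hR₀.trans (Metric.ball_subset_ball (le_max_left _ _))
  have hout : ∀ x : ℝ, R ≤ |x| → g x = 0 := by
    intro x hx
    by_contra hne
    have h1 := hsub (subset_tsupport g (Function.mem_support.2 hne))
    rw [Metric.mem_ball, dist_zero_right, Real.norm_eq_abs] at h1
    linarith
  have hdc : Continuous (deriv g) := hg2.continuous_deriv (by norm_num)
  refine ⟨∫ x in (-R)..R, |deriv g x|, intervalIntegral.integral_nonneg (by linarith)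
    fun x _ => abs_nonneg _, fun N => ?_⟩
  have hN : (0 : ℝ) < (N : ℝ) + 1 := by positivity
  have hv := v_iint hw N (-R) R
  have hWac : AbsolutelyContinuousOnInterval (fun x => ∫ t in (-R)..x, (w N t - 3 / 2)) (-R) R :=
    hv.absolutelyContinuousOnInterval_intervalIntegral (c := -R) left_mem_uIcc
  have hgac : AbsolutelyContinuousOnInterval g (-R) R :=
    (hg2.of_le (by norm_num)).contDiffOn.absolutelyContinuousOnInterval
  have h1 := hgac.integral_mul_deriv_eq_deriv_mul hWac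
  have hgR : g R = 0 := hout R (le_abs_self R)
  have hgR' : g (-R) = 0 := hout (-R) (by rw [abs_neg]; exact le_abs_self R)
  rw [hgR, hgR', zero_mul, zero_mul, sub_zero, zero_sub] at h1
  have h2 : ∫ x, g x * (w N x - 3 / 2) = ∫ x in (-R)..R, g x * (w N x - 3 / 2) := by
    symm
    apply intervalIntegral.integral_eq_integral_of_support_subset
    intro x hx
    have h3 : g x ≠ 0 := fun h => hx (by simp only [h, zero_mul])
    have h4 : |x| < R := by
      by_contra hc
      exact h3 (hout x (not_lt.1 hc))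
    rw [abs_lt] at h4
    exact ⟨h4.1, h4.2.le⟩
  have h3 : ∫ x in (-R)..R, g x * (w N x - 3 / 2) =
      ∫ x in (-R)..R, g x * deriv (fun x => ∫ t in (-R)..x, (w N t - 3 / 2)) x := by
    apply intervalIntegral.integral_congr_ae
    filter_upwards [hv.ae_hasDerivAt_integral] with x hx hx2
    rw [(hx (uIoc_subset_uIcc hx2) (-R) left_mem_uIcc).deriv]
  rw [h2, h3, h1, abs_neg]
  have h4 : ‖∫ x in (-R)..R, deriv g x * ∫ t in (-R)..x, (w N t - 3 / 2)‖ ≤
      ∫ x in (-R)..R, |deriv g x| * (1 / (N + 1)) := by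
    apply intervalIntegral.norm_integral_le_of_norm_le (by linarith)
    · refine Eventually.of_forall fun x _ => ?_
      rw [norm_mul, Real.norm_eq_abs, Real.norm_eq_abs]
      exact mul_le_mul_of_nonneg_left (hw.osc N _ _) (abs_nonneg _)
    · exact (hdc.abs.mul continuous_const).intervalIntegrable _ _
  rw [Real.norm_eq_abs] at h4
  refine h4.trans (le_of_eq ?_)
  rw [intervalIntegral.integral_mul_const]
  ring

theorem t_W2 : S_W2 := by
  intro w hw ψ hψ
  rw [Metric.tendsto_atTop]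
  intro ε hε
  obtain ⟨g, hg1, hg2, hg3⟩ := (memLp_one_iff_integrable.2 hψ).exist_eLpNorm_sub_le
    ENNReal.one_ne_top le_rfl hε
  obtain ⟨C, hC, hCb⟩ := smooth_bd hw hg1 hg2
  have hgi : Integrable g := hg2.continuous.integrable_of_hasCompactSupport hg1
  obtain ⟨N₀, hN₀⟩ := exists_nat_gt (2 * C / ε)
  refine ⟨N₀, fun N hN => ?_⟩
  have hN' : (0 : ℝ) < (N : ℝ) + 1 := by positivity
  have hvm : AEStronglyMeasurable (fun x => w N x - 3 / 2) volume :=
    ((hw.wt N).meas.sub_const _).aestronglyMeasurable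
  have hbd : ∀ᵐ x : ℝ, ‖w N x - 3 / 2‖ ≤ 1 / 2 := Eventually.of_forall (v_bd hw N)
  have hwbd : ∀ᵐ x : ℝ, ‖w N x‖ ≤ 2 := Eventually.of_forall fun x => by
    have h1 := (hw.wt N).one_le x
    have h2 := (hw.wt N).le_two x
    rw [Real.norm_eq_abs, abs_le]
    constructor <;> linarith
  have hi1 : Integrable fun x => ψ x * w N x :=
    hψ.mul_bdd (c := 2) (hw.wt N).meas.aestronglyMeasurable hwbd
  have hi2 : Integrable fun x => ψ x * (3 / 2) := hψ.mul_const _
  have hi3 : Integrable fun x => g x * (w N x - 3 / 2) := hgi.mul_bdd (c := 1 / 2) hvm hbd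
  have hi4 : Integrable fun x => (ψ x - g x) * (w N x - 3 / 2) :=
    (hψ.sub hgi).mul_bdd (c := 1 / 2) hvm hbd
  have e1 : (∫ x, ψ x * w N x) - ∫ x, ψ x * (3 / 2) =
      (∫ x, (ψ x - g x) * (w N x - 3 / 2)) + ∫ x, g x * (w N x - 3 / 2) := by
    rw [← integral_sub hi1 hi2, ← integral_add hi4 hi3]
    apply integral_congr_ae
    refine Eventually.of_forall fun x => ?_
    simp only
    ring
  rw [Real.dist_eq, e1]
  have b1 : |∫ x, (ψ x - g x) * (w N x - 3 / 2)| ≤ ε * (1 / 2) := by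
    have h1 : ‖∫ x, (ψ x - g x) * (w N x - 3 / 2)‖ ≤ ∫ x, ‖ψ x - g x‖ * (1 / 2) := by
      refine norm_integral_le_of_norm_le ((hψ.sub hgi).norm.mul_const _) ?_
      filter_upwards [hbd] with x hx
      rw [norm_mul]
      exact mul_le_mul_of_nonneg_left hx (norm_nonneg _)
    rw [Real.norm_eq_abs] at h1
    refine h1.trans ?_
    rw [integral_mul_const]
    refine mul_le_mul_of_nonneg_right ?_ (by norm_num)
    have h2 : ∫ x, ‖ψ x - g x‖ = (eLpNorm (ψ - g) 1 volume).toReal := by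
      rw [eLpNorm_one_eq_lintegral_enorm]
      exact integral_norm_eq_lintegral_enorm (hψ.sub hgi).aestronglyMeasurable
    rw [h2]
    exact ENNReal.toReal_le_of_le_ofReal hε.le hg3
  have b2 := hCb N
  have b3 : C / ((N : ℝ) + 1) < ε / 2 := by
    rw [div_lt_iff₀ hN']
    have h1 : (N₀ : ℝ) ≤ N := by exact_mod_cast hN
    have h2 : 2 * C < N₀ * ε := by
      rw [div_lt_iff₀ hε] at hN₀
      exact hN₀
    nlinarith
  calc |(∫ x, (ψ x - g x) * (w N x - 3 / 2)) + ∫ x, g x * (w N x - 3 / 2)|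
      ≤ |∫ x, (ψ x - g x) * (w N x - 3 / 2)| + |∫ x, g x * (w N x - 3 / 2)| := abs_add_le _ _
    _ ≤ ε * (1 / 2) + C / (N + 1) := add_le_add b1 b2
    _ < ε := by linarith

end

end Run7.h847.HK
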